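import Pool.Agent.H993R3.Irr

/-!
The special degenerations of a klt Fano variety can be unbounded: the projective plane has special
degenerations to the weighted projective planes `P(1, b², c²)`, `b² + c² + 1 = 3bc`, with `b, c`
consecutive Fibonacci numbers of odd index, and these surfaces have no closed embeddings in a fixed
projective space, as the embedding dimensions of their singular points are unbounded.
-/

noncomputable section

namespace Pool.Agent.Results.MP_ba5bc1_ag.UnboundedDegenerations

open Pool.Agent.Helper774.KSing
open Pool.Agent.H993R3

/-- There is a klt Fano variety (of dimension two) such that the set of the central fibres of its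
special degenerations is not bounded. -/
theorem result : ∃ X : Variety, X.dim = 2 ∧ X.IsFano ∧ X.IsKlt ∧
    ¬ IsBoundedFamily (centralFibres X) := by
  obtain ⟨K, fld, alg, ⟨T⟩⟩ := Pool.Agent.Helper774.KStab.exists_torusField 2
  refine ⟨toricVar T dataP, rfl, toric_isFano T dataP, toric_klt T dataP, ?_⟩
  rintro ⟨N, A, _, _, I, _, _, h⟩
  obtain ⟨_, ξ, hξ, _⟩ := h (toricVar T (dataN (N + 2)))
    ⟨toric_isFano T _, toric_klt T _, ⟨degen T (N + 2)⟩⟩
  have := emb_bound T (N + 2) (by omega) ξ hξ
  omega

end Pool.Agent.Results.MP_ba5bc1_ag.UnboundedDegenerations
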